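import Pool.Agent.Y527.ZA.Stm2
import Pool.Agent.Y442.ZA.GAL

/-!
# Project ZA, task ABEL: all subfields of the field of abelian numbers are invariant (helper87)
-/

set_option autoImplicit false

namespace Pool.Agent.Y87.ZA

open Polynomial NumberField
open Pool.Agent.H358R3 Pool.Agent.Y527.ZA

theorem normal_Qab : Normal ℚ Qab := by
  rw [normal_iff]
  intro x
  have hx : IsIntegral ℚ x := (Algebra.IsAlgebraic.isAlgebraic x).isIntegral
  refine ⟨hx, IntermediateField.splits_of_splits (IsAlgClosed.splits _) ?_⟩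
  intro z hz
  rw [← Algebra.IsAlgebraic.range_eval_eq_rootSet_minpoly (F := ℚ) (K := Qab) ℂ x] at hz
  obtain ⟨ψ, rfl⟩ := hz
  exact Pool.Agent.Y442.ZA.psi_mem ψ x

theorem isGalois_Qab : IsGalois ℚ Qab := by
  have := normal_Qab
  constructor

theorem ring_comm (σ τ : Zab →+* Zab) (x : Zab) : σ (τ x) = τ (σ x) := by
  obtain ⟨n, hn, D, g, hD, h⟩ := rep x
  have hne : NeZero n := ⟨hn⟩
  have hpow : ∀ ρ : Zab →+* Zab, ∃ a : ℕ, ρ (zR n hn) = (zR n hn) ^ a := by
    intro ρ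
    obtain ⟨a, -, ha⟩ := (zR_prim n hn).eq_pow_of_pow_eq_one
      (ξ := ρ (zR n hn)) (by rw [← map_pow, (zR_prim n hn).pow_eq_one, map_one])
    exact ⟨a, ha.symm⟩
  obtain ⟨a, ha⟩ := hpow σ
  obtain ⟨b, hb⟩ := hpow τ
  have hz : σ (τ (zR n hn)) = τ (σ (zR n hn)) := by
    rw [hb, map_pow, ha, map_pow, hb, ← pow_mul, ← pow_mul, mul_comm]
  have hae : ∀ (ρ : Zab →+* Zab) (y : Zab), ρ (aeval y g) = aeval (ρ y) g := by
    intro ρ y
    have h2 : ρ (aeval y g) = ρ.toIntAlgHom (aeval y g) := rfl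
    rw [h2, ← aeval_algHom_apply]
    rfl
  have h1 : (D : Zab) * σ (τ x) = (D : Zab) * τ (σ x) := by
    have e1 : (D : Zab) * σ (τ x) = σ (τ ((D : Zab) * x)) := by
      rw [map_mul, map_mul, map_natCast, map_natCast]
    have e2 : (D : Zab) * τ (σ x) = τ (σ ((D : Zab) * x)) := by
      rw [map_mul, map_mul, map_natCast, map_natCast]
    rw [e1, e2, h, hae, hae, hae, hae, hz]
  exact mul_left_cancel₀ (Nat.cast_ne_zero.2 hD) h1

theorem h_ABEL : s_ABEL := by
  intro F σ x hx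
  have := isGalois_Qab
  rw [← InfiniteGalois.fixedField_fixingSubgroup F, IntermediateField.mem_fixedField_iff]
  intro t ht
  rw [IntermediateField.mem_fixingSubgroup_iff] at ht
  let τ : Zab ≃+* Zab := RingOfIntegers.mapRingEquiv t.toRingEquiv
  have hτ : ∀ y : Zab, ((τ y : Zab) : Qab) = t (y : Qab) := fun y => rfl
  have h1 : τ x = x := by
    apply RingOfIntegers.ext
    rw [hτ]
    exact ht _ hx
  have h2 : σ (τ x) = τ (σ x) := ring_comm σ.toRingHom τ.toRingHom x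
  rw [← hτ, ← h2, h1]

end Pool.Agent.Y87.ZA
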